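import Pool.Agent.L0h99.MN.Stm

set_option autoImplicit false

/-! C3H: the step with two heavy vertices at distance five. -/

namespace Pool.Agent.L0h39.MN

open Finset Pool.Agent.L0h99.MN

theorem card_le_Mu {V : Type} [Fintype V] [DecidableEq V] {G : SimpleGraph V} {W H : Finset V}
    (hI : Inv G W H) {A : Finset V} (hA : A ⊆ W) : (A.card : ℤ) ≤ Mu G A := by
  unfold Mu
  rw [Finset.card_eq_sum_ones, Nat.cast_sum]
  refine Finset.sum_le_sum fun z hz => ?_
  have := hI.deg z (hA hz)
  unfold mu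
  push_cast
  omega

theorem C3H : St_C3H := by
  intro V _ _ G W H h34 hI hCA hCB v hv a b w hab haw hbw hN ha hb y hyW hwy hyv x hxW hyx hxw h hh
    hhx hL
  obtain ⟨a', b', w', hab', haw', hbw', hN', ha', hb', -⟩ := hL
  have hva : G.Adj v a := mem_N.1 (by rw [hN]; simp)
  have hvb : G.Adj v b := mem_N.1 (by rw [hN]; simp)
  have hvw : G.Adj v w := mem_N.1 (by rw [hN]; simp)
  have hha' : G.Adj h a' := mem_N.1 (by rw [hN']; simp)
  have hhb' : G.Adj h b' := mem_N.1 (by rw [hN']; simp)
  -- `y` is not heavy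
  have hyH : y ∉ H := fun hy => hyv (hCA w v hv y hy hvw.symm hwy).symm
  have hyh : y ≠ h := fun e => hyH (e ▸ hh)
  -- `x = w'`
  have hx : x = w' := by
    have h1 : x ∈ N G h := mem_N.2 hhx
    rw [hN'] at h1
    simp only [mem_insert, mem_singleton] at h1
    rcases h1 with rfl | rfl | h1
    · exact absurd (ha' y hyW hyx.symm) hyh
    · exact absurd (hb' y hyW hyx.symm) hyh
    · exact h1
  subst hx
  -- membership in `W`
  have hvW : v ∈ W := hI.sub hv
  have hhW : h ∈ W := hI.sub hh
  have haW : a ∈ W := hI.hN v hv a hva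
  have hbW : b ∈ W := hI.hN v hv b hvb
  have hwW : w ∈ W := hI.hN v hv w hvw
  have haW' : a' ∈ W := hI.hN h hh a' hha'
  have hbW' : b' ∈ W := hI.hN h hh b' hhb'
  -- not heavy
  have haH : a ∉ H := fun e => hI.ind v hv a e hva
  have hbH : b ∉ H := fun e => hI.ind v hv b e hvb
  have hwH : w ∉ H := fun e => hI.ind v hv w e hvw
  have haH' : a' ∉ H := fun e => hI.ind h hh a' e hha'
  have hbH' : b' ∉ H := fun e => hI.ind h hh b' e hhb'
  have hxH : x ∉ H := fun e => hI.ind h hh x e hhx
  -- `v ≠ h`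
  have hvh : v ≠ h := by
    rintro rfl
    exact hxw (h34.q v w y x hvw hwy hhx hyx.symm (Ne.symm hyv)).symm
  -- different elements of `T`
  have n1 : v ≠ w := hvw.ne
  have n2 : v ≠ y := Ne.symm hyv
  have n3 : v ≠ x := fun e => hxH (e ▸ hv)
  have n4 : w ≠ y := hwy.ne
  have n5 : w ≠ x := Ne.symm hxw
  have n6 : w ≠ h := fun e => hwH (e ▸ hh)
  have n7 : y ≠ x := hyx.ne
  have n8 : x ≠ h := hhx.ne.symm
  -- a vertex is not adjacent to `v` and to `h`
  have hno : ∀ z, G.Adj v z → ¬ G.Adj h z := fun z h1 h2 =>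
    hvh (hCA z v hv h hh h1.symm h2.symm)
  -- `A` and `T` are disjoint
  have m1 : a ≠ v := hva.ne.symm
  have m2 : a ≠ y := fun e => h34.t v w a hvw (e ▸ hwy) hva
  have m3 : a ≠ x := fun e => hno a hva (e ▸ hhx)
  have m4 : a ≠ h := fun e => haH (e ▸ hh)
  have m5 : b ≠ v := hvb.ne.symm
  have m6 : b ≠ y := fun e => h34.t v w b hvw (e ▸ hwy) hvb
  have m7 : b ≠ x := fun e => hno b hvb (e ▸ hhx)
  have m8 : b ≠ h := fun e => hbH (e ▸ hh)
  have m9 : a' ≠ v := fun e => haH' (e ▸ hv)
  have m10 : a' ≠ w := fun e => hno w hvw (e ▸ hha')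
  have m11 : a' ≠ y := fun e => hCB v hv h hh w y hvw hwy (e ▸ hha'.symm)
  have m12 : a' ≠ h := hha'.ne.symm
  have m13 : b' ≠ v := fun e => hbH' (e ▸ hv)
  have m14 : b' ≠ w := fun e => hno w hvw (e ▸ hhb')
  have m15 : b' ≠ y := fun e => hCB v hv h hh w y hvw hwy (e ▸ hhb'.symm)
  have m16 : b' ≠ h := hhb'.ne.symm
  -- different elements of `A`
  have k1 : a ≠ a' := fun e => hno a hva (e ▸ hha')
  have k2 : a ≠ b' := fun e => hno a hva (e ▸ hhb')
  have k3 : b ≠ a' := fun e => hno b hvb (e ▸ hha')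
  have k4 : b ≠ b' := fun e => hno b hvb (e ▸ hhb')
  -- the neighbours of the elements of `A`
  have hA : ∀ z ∈ ({a, b, a', b'} : Finset V), ∀ u ∈ W, G.Adj z u → u = v ∨ u = h := by
    intro z hz u hu hzu
    simp only [mem_insert, mem_singleton] at hz
    rcases hz with rfl | rfl | rfl | rfl
    · exact Or.inl (ha u hu hzu)
    · exact Or.inl (hb u hu hzu)
    · exact Or.inr (ha' u hu hzu)
    · exact Or.inr (hb' u hu hzu)
  have hTW : ({v, w, y, x, h} : Finset V) ⊆ W := by
    intro z hz
    simp only [mem_insert, mem_singleton] at hz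
    rcases hz with rfl | rfl | rfl | rfl | rfl <;> assumption
  have hAW : ({a, b, a', b'} : Finset V) ⊆ W := by
    intro z hz
    simp only [mem_insert, mem_singleton] at hz
    rcases hz with rfl | rfl | rfl | rfl <;> assumption
  have hTc : ({v, w, y, x, h} : Finset V).card = 5 := by
    rw [card_insert_of_notMem (by simp [n1, n2, n3, hvh]),
      card_insert_of_notMem (by simp [n4, n5, n6]), card_insert_of_notMem (by simp [n7, hyh]),
      card_insert_of_notMem (by simp [n8]), card_singleton]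
  have hAc : ({a, b, a', b'} : Finset V).card = 4 := by
    rw [card_insert_of_notMem (by simp [hab, k1, k2]), card_insert_of_notMem (by simp [k3, k4]),
      card_insert_of_notMem (by simp [hab']), card_singleton]
  have hvA : v ∉ ({a, b, a', b'} : Finset V) := by
    simp [m1.symm, m5.symm, m9.symm, m13.symm]
  have hhA : h ∉ ({a, b, a', b'} : Finset V) := by
    simp [m4.symm, m8.symm, m12.symm, m16.symm]
  refine ⟨{v, w, y, x, h}, {a, b, a', b'}, hTW, hAW, ?_, ?_, ?_, ?_, ?_, ?_⟩
  · rw [Finset.disjoint_right]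
    intro z hz
    simp only [mem_insert, mem_singleton] at hz
    rcases hz with rfl | rfl | rfl | rfl
    · simp [m1, m2, m3, m4, haw]
    · simp [m5, m6, m7, m8, hbw]
    · simp [m9, m10, m11, m12, haw']
    · simp [m13, m14, m15, m16, hbw']
  · intro z hz
    simp only [mem_insert, mem_singleton] at hz
    rcases hz with rfl | rfl | rfl | rfl <;> assumption
  · refine ⟨y, by simp, ?_⟩
    intro z hz
    simp only [mem_insert, mem_singleton] at hz
    rcases hz with rfl | rfl | rfl | rfl | rfl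
    · exact Or.inr (Or.inr ⟨w, by simp, hwy.symm, hvw.symm⟩)
    · exact Or.inr (Or.inl hwy.symm)
    · exact Or.inl rfl
    · exact Or.inr (Or.inl hyx)
    · exact Or.inr (Or.inr ⟨x, by simp, hyx, hhx.symm⟩)
  · have e0 : ee G {a, b, a', b'} {a, b, a', b'} = 0 := by
      unfold ee
      refine Finset.sum_eq_zero fun z hz => ?_
      rw [Nat.cast_eq_zero, Finset.card_eq_zero]
      refine Finset.eq_empty_of_forall_notMem fun u hu => ?_
      rw [mem_inter, mem_N] at hu
      rcases hA z hz u (hAW hu.2) hu.1 with rfl | rfl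
      · exact hvA hu.2
      · exact hhA hu.2
    have h1 := card_le_Mu hI hTW
    have h2 := card_le_Mu hI hAW
    rw [hTc] at h1
    rw [hAc] at h2
    rw [e0]
    push_cast at h1 h2
    linarith
  · intro g hg hgT z hz hgz
    simp only [mem_insert, mem_singleton, not_or] at hgT
    obtain ⟨g1, g2, g3, g4, g5⟩ := hgT
    simp only [mem_insert, mem_singleton] at hz
    rcases hz with (rfl | rfl | rfl | rfl | rfl) | (rfl | rfl | rfl | rfl)
    · exact hI.ind g hg _ hv hgz
    · exact g1 (hCA _ g hg v hv hgz.symm hvw.symm)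
    · exact hCB v hv g hg w _ hvw hwy hgz.symm
    · exact g5 (hCA _ g hg h hh hgz.symm hhx.symm)
    · exact hI.ind g hg _ hh hgz
    · exact g1 (hCA _ g hg v hv hgz.symm hva.symm)
    · exact g1 (hCA _ g hg v hv hgz.symm hvb.symm)
    · exact g5 (hCA _ g hg h hh hgz.symm hha'.symm)
    · exact g5 (hCA _ g hg h hh hgz.symm hhb'.symm)
  · intro z hz u hu huT _ hzu
    rcases hA z hz u hu hzu with rfl | rfl
    · exact huT (by simp)
    · exact huT (by simp)

end Pool.Agent.L0h39.MN
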